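import Pool.Agent.Lib.MP_af4270_co.GMFinal
import Pool.Agent.Lib.MP_af4270_co.DFinal
import Pool.Agent.Lib.MP_af4270_co.UBound

/-!
# MP_af4270_co: the minimum number of edges of a pancyclic graph, up to an additive constant

`m(p) = p + log₂ p + log* p + O(1)`. The lower bound is new; the upper bound is the known
construction.
-/

set_option autoImplicit false

namespace Pool.Agent.Results.MP_af4270_co.SharpAsymptotics

open Pool.Agent.Lib.MP_af4270_co

/-- `G` contains a cycle of length `ℓ` for every `3 ≤ ℓ ≤ p` -/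
def IsPancyclic {p : ℕ} (G : SimpleGraph (Fin p)) : Prop :=
  ∀ ℓ : ℕ, 3 ≤ ℓ → ℓ ≤ p → ∃ v : Fin p, ∃ c : G.Walk v v, c.IsCycle ∧ c.length = ℓ

/-- `m(p)`: the least number of edges of a pancyclic graph on `p` vertices -/
noncomputable def minEdges (p : ℕ) : ℕ :=
  sInf {k : ℕ | ∃ G : SimpleGraph (Fin p), IsPancyclic G ∧ G.edgeSet.ncard = k}

/-- `log* x`: the number of times `log₂` must be applied to `x` to get a value at most `1` -/
noncomputable def logStar (x : ℝ) : ℕ := sInf {k : ℕ | (Real.logb 2)^[k] x ≤ 1}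

/-- `m(p) = p + log₂ p + log* p + O(1)` -/
theorem result : ∀ p : ℕ, 3 ≤ p →
    |(minEdges p : ℝ) - (p + Real.logb 2 p + logStar p)| ≤ 102 := by
  intro p hp
  obtain ⟨G, hG, hcard⟩ := exists_pancyclic hp
  have hle : minEdges p ≤ G.edgeSet.ncard := Nat.sInf_le ⟨G, hG, rfl⟩
  have hmem : minEdges p ∈ {k : ℕ | ∃ G : SimpleGraph (Fin p), IsPancyclic G ∧
      G.edgeSet.ncard = k} := Nat.sInf_mem ⟨_, G, hG, rfl⟩
  obtain ⟨G', hG', hc'⟩ := hmem
  have h1 : Real.logb 2 p + (lstar p : ℝ) - 102 ≤ (Nat.card G'.edgeSet : ℝ) - p :=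
    pancyclic_bound structure_D hp G' hG'
  have h2 : ((minEdges p : ℕ) : ℝ) = (Nat.card G'.edgeSet : ℝ) := by rw [← hc']; rfl
  have h3 : ((minEdges p : ℕ) : ℝ) ≤ (Nat.card G.edgeSet : ℝ) := by exact_mod_cast hle
  have h4 : logStar (p : ℝ) = lstar (p : ℝ) := rfl
  rw [h4, abs_le]
  constructor <;> linarith

end Pool.Agent.Results.MP_af4270_co.SharpAsymptotics
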